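import Mathlib

/-! Algebraic dependence of coordinates: data for the implicit function theorem. -/

set_option autoImplicit false

namespace Pool.Agent.Y563.SE

open MvPolynomial

theorem countable_mvPolynomial (σ R : Type) [Countable σ] [CommSemiring R] [Countable R] :
    Countable (MvPolynomial σ R) := by
  rw [← Cardinal.mk_le_aleph0_iff]
  refine (MvPolynomial.cardinalMk_le_max).trans (max_le (max_le ?_ ?_) le_rfl)
  · exact Cardinal.mk_le_aleph0_iff.2 inferInstance
  · exact Cardinal.mk_le_aleph0_iff.2 inferInstance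

theorem pderiv_props {σ : Type} {F : Type} [Field F] [CharZero F] (i : σ) (r : MvPolynomial σ F)
    (hi : i ∈ r.vars) : pderiv i r ≠ 0 ∧ degreeOf i (pderiv i r) < degreeOf i r ∧
      (pderiv i r).vars ⊆ r.vars := by
  classical
  have key : ∀ m ∈ (pderiv i r).support, m + Finsupp.single i 1 ∈ r.support := by
    intro m hm
    rw [mem_support_iff, coeff_pderiv] at hm
    rw [mem_support_iff]
    exact left_ne_zero_of_mul hm
  have hd : 0 < degreeOf i r := by
    rw [Nat.pos_iff_ne_zero]
    intro h
    rw [mem_vars] at hi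
    obtain ⟨m, hm, hmi⟩ := hi
    have h1 := monomial_le_degreeOf i hm
    rw [h] at h1
    rw [Finsupp.mem_support_iff] at hmi
    omega
  refine ⟨?_, ?_, ?_⟩
  · intro h0
    rw [mem_vars] at hi
    obtain ⟨m, hm, hmi⟩ := hi
    rw [Finsupp.mem_support_iff] at hmi
    have h1 : coeff (m - Finsupp.single i 1) (pderiv i r) = 0 := by rw [h0, coeff_zero]
    rw [coeff_pderiv] at h1
    have h2 : m - Finsupp.single i 1 + Finsupp.single i 1 = m := by
      apply tsub_add_cancel_of_le
      rw [Finsupp.single_le_iff]
      omega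
    rw [h2] at h1
    rcases mul_eq_zero.1 h1 with h3 | h3
    · exact (mem_support_iff.1 hm) h3
    · have h4 : ((((m - Finsupp.single i 1 : σ →₀ ℕ) i) + 1 : ℕ) : F) ≠ 0 := by
        rw [Nat.cast_ne_zero]
        exact Nat.succ_ne_zero _
      apply h4
      push_cast
      exact h3
  · rw [degreeOf_lt_iff hd]
    intro m hm
    have h1 := monomial_le_degreeOf i (key m hm)
    simp only [Finsupp.add_apply, Finsupp.single_eq_same] at h1
    omega
  · intro k hk
    rw [mem_vars] at hk ⊢
    obtain ⟨m, hm, hmk⟩ := hk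
    refine ⟨_, key m hm, ?_⟩
    rw [Finsupp.mem_support_iff] at hmk ⊢
    simp only [Finsupp.add_apply]
    omega

theorem eq_zero_of_indep {σ F A : Type} [Field F] [CommRing A] [Algebra F A] {u : σ → A}
    {J : Finset σ} (hJ : AlgebraicIndependent F (fun j : J => u j)) {r : MvPolynomial σ F}
    (hr : r.vars ⊆ J) (h0 : aeval u r = 0) : r = 0 := by
  obtain ⟨r', rfl⟩ := exists_rename_eq_of_vars_subset_range r (fun j : J => (j : σ))
    Subtype.val_injective (by
      intro k hk
      exact ⟨⟨k, hr hk⟩, rfl⟩)
  rw [aeval_rename] at h0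
  have := (injective_iff_map_eq_zero _).1 hJ r' h0
  rw [this, map_zero]

/-- data for the implicit function theorem -/
theorem exists_data {σ F A : Type} [Fintype σ] [DecidableEq σ] [Field F] [CharZero F] [Field A]
    [Algebra F A] (u : σ → A) :
    ∃ J : Finset σ, AlgebraicIndependent F (fun j : J => u j) ∧
      ∃ p : σ → MvPolynomial σ F, ∀ i ∉ J, (p i).vars ⊆ insert i J ∧ aeval u (p i) = 0 ∧
        aeval u (pderiv i (p i)) ≠ 0 := by
  classical
  obtain ⟨J, hJ, hmax⟩ := Finset.exists_max_image
    ((Finset.univ : Finset σ).powerset.filter fun J : Finset σ =>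
      AlgebraicIndependent F (fun j : J => u j))
    Finset.card ⟨(∅ : Finset σ), by
      rw [Finset.mem_filter]
      refine ⟨Finset.mem_powerset.2 (Finset.empty_subset _), ?_⟩
      exact algebraicIndependent_empty_type_iff.2 (FaithfulSMul.algebraMap_injective F A)⟩
  rw [Finset.mem_filter] at hJ
  refine ⟨J, hJ.2, ?_⟩
  have key : ∀ i, ∃ r : MvPolynomial σ F, i ∉ J → r.vars ⊆ insert i J ∧ aeval u r = 0 ∧
      aeval u (pderiv i r) ≠ 0 := by
    intro i
    by_cases hi : i ∈ J
    · exact ⟨0, fun h => absurd hi h⟩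
    -- a dependence
    have hdep : ¬ AlgebraicIndependent F (fun j : (insert i J : Finset σ) => u j) := by
      intro h
      have h1 := hmax (insert i J) (by
        rw [Finset.mem_filter]
        exact ⟨Finset.mem_powerset.2 (Finset.subset_univ _), h⟩)
      rw [Finset.card_insert_of_notMem hi] at h1
      omega
    have hex : ∃ r : MvPolynomial σ F, r ≠ 0 ∧ r.vars ⊆ insert i J ∧ aeval u r = 0 := by
      unfold AlgebraicIndependent at hdep
      rw [injective_iff_map_eq_zero] at hdep
      push Not at hdep
      obtain ⟨r', h1, h2⟩ := hdep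
      refine ⟨rename (fun j : (insert i J : Finset σ) => (j : σ)) r', ?_, ?_, ?_⟩
      · intro h
        exact h2 ((rename_injective _ Subtype.val_injective) (by rw [h, map_zero]))
      · refine (vars_rename _ _).trans ?_
        intro k hk
        obtain ⟨j, _, rfl⟩ := Finset.mem_image.1 hk
        exact j.2
      · rw [aeval_rename]
        exact h1
    obtain ⟨r, ⟨hr0, hrv, hru⟩, hmin⟩ := WellFounded.has_min
      (measure (fun r : MvPolynomial σ F => degreeOf i r)).wf
      {r : MvPolynomial σ F | r ≠ 0 ∧ r.vars ⊆ insert i J ∧ aeval u r = 0} hex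
    refine ⟨r, fun _ => ⟨hrv, hru, ?_⟩⟩
    intro h0
    have hir : i ∈ r.vars := by
      by_contra hir
      apply hr0
      refine eq_zero_of_indep hJ.2 (r := r) ?_ hru
      intro k hk
      rcases Finset.mem_insert.1 (hrv hk) with rfl | h
      · exact absurd hk hir
      · exact h
    obtain ⟨h1, h2, h3⟩ := pderiv_props i r hir
    exact hmin (pderiv i r) ⟨h1, h3.trans hrv, h0⟩ h2
  choose p hp using key
  exact ⟨p, fun i hi => hp i hi⟩

end Pool.Agent.Y563.SE
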