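import Pool.Agent.Y563.SE.Loc

/-! The exceptional translations form a null set. -/

set_option autoImplicit false

namespace Pool.Agent.Y563.SE

open MeasureTheory Set Filter Topology MvPolynomial

variable {n : ℕ}

/-- extension by zero of `u_J` along `e` -/
noncomputable def Wx {J : Finset (Fin n ⊕ Fin n)} (e : J → Fin n) (u : Fin n ⊕ Fin n → ℂ) :
    Fin n → ℂ :=
  Function.extend e (fun j : J => u j) 0

/-- the exceptional pairs for given data -/
def BB (J : Finset (Fin n ⊕ Fin n)) (p : Fin n ⊕ Fin n → MvPolynomial (Fin n ⊕ Fin n) ℂ)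
    (e : J → Fin n) (h : (Fin n ⊕ Fin n → ℂ) → ℂ) : Set ((Fin n → ℂ) × (Fin n ⊕ Fin n → ℂ)) :=
  {q | (∀ i ∉ J, eval q.2 (p i) = 0 ∧ eval q.2 (pderiv i (p i)) ≠ 0) ∧
    (∀ i, q.2 (Sum.inr i) ≠ 0) ∧ h (Sum.elim q.1 (Wx e q.2)) = 0}

open Classical in
theorem null_local (J : Finset (Fin n ⊕ Fin n))
    (p : Fin n ⊕ Fin n → MvPolynomial (Fin n ⊕ Fin n) ℂ)
    (hp : ∀ i ∉ J, ((p i).vars : Set (Fin n ⊕ Fin n)) ⊆ insert i J)
    (e : J → Fin n) (he : Function.Injective e)
    (h : (Fin n ⊕ Fin n → ℂ) → ℂ) (hh : Differentiable ℂ h) (hne : ∃ x, h x ≠ 0)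
    (q0 : (Fin n → ℂ) × (Fin n ⊕ Fin n → ℂ)) (hq0 : q0 ∈ BB J p e h) :
    ∃ N ∈ 𝓝 q0, volume (Ph '' (BB J p e h ∩ N)) = 0 := by
  obtain ⟨g, U, Y, hU, hu0, hY, hg, hgU⟩ := exists_local J p hp q0.2 fun i hi => (hq0.1 i hi).2
  refine ⟨Prod.snd ⁻¹' U, (hU.preimage continuous_snd).mem_nhds hu0, ?_⟩
  let η : (Fin n ⊕ Fin n → ℂ) → (Fin n ⊕ Fin n → ℂ) :=
    fun x i => if hi : i ∈ J then x (Sum.inr (e ⟨i, hi⟩)) else 0
  have hη : Differentiable ℂ η := by
    rw [differentiable_pi]
    intro i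
    by_cases hi : i ∈ J
    · simp only [η, dif_pos hi]
      exact differentiable_apply _
    · simp only [η, dif_neg hi]
      exact differentiable_const _
  let G : (Fin n ⊕ Fin n → ℂ) → (Fin n ⊕ Fin n → ℂ) := fun x => Ph (fun i => x (Sum.inl i), g (η x))
  let S : Set (Fin n ⊕ Fin n → ℂ) := {x | h x = 0 ∧ η x ∈ Y ∧ ∀ i, g (η x) (Sum.inr i) ≠ 0}
  have hS : volume S = 0 := measure_mono_null (fun x hx => hx.1) (null_fintype h hh hne)
  have hG : DifferentiableOn ℝ G S := by
    intro x hx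
    have h1 : DifferentiableAt ℂ (fun x => g (η x)) x := by
      have h2 : DifferentiableAt ℂ g (η x) := (hg _ hx.2.1).differentiableAt (hY.mem_nhds hx.2.1)
      exact h2.comp x (hη x)
    have h3 : DifferentiableAt ℂ G x := by
      rw [differentiableAt_pi]
      rintro (i | i)
      · show DifferentiableAt ℂ (fun x => x (Sum.inl i) - g (η x) (Sum.inl i)) x
        exact ((differentiable_apply (𝕜 := ℂ) (Sum.inl i : Fin n ⊕ Fin n)) x).sub
          ((differentiableAt_pi.1 h1) (Sum.inl i))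
      · show DifferentiableAt ℂ (fun x => Complex.exp (x (Sum.inl i)) / g (η x) (Sum.inr i)) x
        have h4 : DifferentiableAt ℂ
            (fun x : Fin n ⊕ Fin n → ℂ => Complex.exp (x (Sum.inl i))) x :=
          ((differentiable_apply (𝕜 := ℂ) (Sum.inl i : Fin n ⊕ Fin n)) x).cexp
        have h5 : DifferentiableAt ℂ (fun x => g (η x) (Sum.inr i)) x :=
          (differentiableAt_pi.1 h1) (Sum.inr i)
        have h6 : g (η x) (Sum.inr i) ≠ 0 := hx.2.2 i
        have h7 : DifferentiableAt ℂ (fun x => (g (η x) (Sum.inr i))⁻¹) x :=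
          DifferentiableAt.comp (g := fun t : ℂ => t⁻¹) x (differentiableAt_inv h6) h5
        have h8 := DifferentiableAt.fun_mul (𝕜 := ℂ) h4 h7
        simp only [div_eq_mul_inv]
        exact h8
    exact (h3.restrictScalars ℝ).differentiableWithinAt
  refine measure_mono_null ?_
    (addHaar_image_eq_zero_of_differentiableOn_of_addHaar_eq_zero volume hG hS)
  rintro _ ⟨q, ⟨hqB, hqU⟩, rfl⟩
  obtain ⟨hq1, hq2, hq3⟩ := hqB
  have hP := hgU q.2 hqU
  have hηx : η (Sum.elim q.1 (Wx e q.2)) = Ps J p q.2 := by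
    funext i
    by_cases hi : i ∈ J
    · simp only [η, dif_pos hi, Ps, if_pos hi, Sum.elim_inr]
      unfold Wx
      rw [he.extend_apply]
    · simp only [η, dif_neg hi, Ps, if_neg hi]
      exact (hq1 i hi).1.symm
  have hgq : g (η (Sum.elim q.1 (Wx e q.2))) = q.2 := by rw [hηx]; exact hP.2
  refine ⟨Sum.elim q.1 (Wx e q.2), ⟨hq3, ?_, ?_⟩, ?_⟩
  · rw [hηx]; exact hP.1
  · intro i
    rw [hgq]
    exact hq2 i
  · show Ph (fun i => q.1 i, g (η (Sum.elim q.1 (Wx e q.2)))) = Ph q
    rw [hgq]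

theorem null_bad (J : Finset (Fin n ⊕ Fin n))
    (p : Fin n ⊕ Fin n → MvPolynomial (Fin n ⊕ Fin n) ℂ)
    (hp : ∀ i ∉ J, ((p i).vars : Set (Fin n ⊕ Fin n)) ⊆ insert i J)
    (e : J → Fin n) (he : Function.Injective e)
    (h : (Fin n ⊕ Fin n → ℂ) → ℂ) (hh : Differentiable ℂ h) (hne : ∃ x, h x ≠ 0) :
    volume (Ph '' BB J p e h) = 0 := by
  have h1 : ∀ q ∈ BB J p e h, ∃ N ∈ 𝓝 q, volume (Ph '' (BB J p e h ∩ N)) = 0 :=
    fun q hq => null_local J p hp e he h hh hne q hq
  choose! N hN hN0 using h1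
  obtain ⟨t, hts, htc, hcov⟩ := TopologicalSpace.countable_cover_nhdsWithin
    (f := N) (s := BB J p e h) fun q hq => mem_nhdsWithin_of_mem_nhds (hN q hq)
  have h2 : Ph '' BB J p e h ⊆ ⋃ q ∈ t, Ph '' (BB J p e h ∩ N q) := by
    rintro _ ⟨q, hq, rfl⟩
    obtain ⟨q', hq', hqN⟩ := mem_iUnion₂.1 (hcov hq)
    exact mem_iUnion₂.2 ⟨q', hq', mem_image_of_mem _ ⟨hq, hqN⟩⟩
  exact measure_mono_null h2 ((measure_biUnion_null_iff htc).2 fun q hq => hN0 q (hts hq))

/-! ### the function `h` -/

theorem indep_exp {ι κ : Type} [Fintype ι] [Fintype κ] (f : MvPolynomial ((ι ⊕ ι) ⊕ κ) ℂ)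
    (h : ∀ (z : ι → ℂ) (w : κ → ℂ),
      eval (Sum.elim (Sum.elim z (fun i => Complex.exp (z i))) w) f = 0) : f = 0 := by
  classical
  -- the values with independent coordinates
  have h1 : ∀ (x y : ι → ℂ) (w : κ → ℂ), (∀ i, y i ≠ 0) →
      eval (Sum.elim (Sum.elim x y) w) f = 0 := by
    intro x y w hy
    -- polynomial in `x`
    have h2 : (aeval (Sum.elim (Sum.elim (fun i => (X i : MvPolynomial ι ℂ)) (fun i => C (y i)))
        (fun k => C (w k))) f : MvPolynomial ι ℂ) = 0 := by
      refine MvPolynomial.funext_set (fun i => Set.range fun k : ℤ =>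
        Complex.log (y i) + 2 * Real.pi * Complex.I * k) ?_ ?_
      · intro i
        apply Set.infinite_range_of_injective
        intro a b hab
        simp only [add_right_inj] at hab
        have h3 : (2 * Real.pi * Complex.I : ℂ) ≠ 0 := by
          simp [Real.pi_ne_zero]
        have h4 := mul_left_cancel₀ h3 hab
        exact_mod_cast h4
      · intro z hz
        rw [map_zero]
        have hz' : ∀ i, Complex.exp (z i) = y i := by
          intro i
          obtain ⟨k, hk⟩ := hz i (mem_univ i)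
          rw [← hk, Complex.exp_add, Complex.exp_log (hy i)]
          have : (2 * Real.pi * Complex.I * k : ℂ) = k * (2 * Real.pi * Complex.I) := by ring
          rw [this, Complex.exp_int_mul_two_pi_mul_I, mul_one]
        have h3 := h z w
        rw [← h3]
        rw [← MvPolynomial.coe_aeval_eq_eval, ← MvPolynomial.coe_aeval_eq_eval]
        simp only [RingHom.coe_coe]
        have : (aeval z) ((aeval (Sum.elim (Sum.elim (fun i => (X i : MvPolynomial ι ℂ))
            (fun i => C (y i))) (fun k => C (w k)))) f) =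
            aeval (fun s => aeval z (Sum.elim (Sum.elim (fun i => (X i : MvPolynomial ι ℂ))
            (fun i => C (y i))) (fun k => C (w k)) s)) f := by
          rw [← MvPolynomial.comp_aeval_apply]
        rw [this]
        congr 1
        apply congrArg
        funext s
        rcases s with (i | i) | k
        · simp
        · simp [hz' i]
        · simp
    have h3 := congrArg (eval x) h2
    rw [map_zero] at h3
    rw [← h3]
    rw [← MvPolynomial.coe_aeval_eq_eval, ← MvPolynomial.coe_aeval_eq_eval]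
    simp only [RingHom.coe_coe]
    have : (aeval x) ((aeval (Sum.elim (Sum.elim (fun i => (X i : MvPolynomial ι ℂ))
        (fun i => C (y i))) (fun k => C (w k)))) f) =
        aeval (fun s => aeval x (Sum.elim (Sum.elim (fun i => (X i : MvPolynomial ι ℂ))
        (fun i => C (y i))) (fun k => C (w k)) s)) f := by
      rw [← MvPolynomial.comp_aeval_apply]
    rw [this]
    congr 1
    apply congrArg
    funext s
    rcases s with (i | i) | k
    · simp
    · simp
    · simp
  refine MvPolynomial.funext_set (Sum.elim (Sum.elim (fun _ => univ) (fun _ => {0}ᶜ))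
    (fun _ => univ)) ?_ ?_
  · rintro ((i | i) | k)
    · exact Set.infinite_univ
    · exact (Set.finite_singleton 0).infinite_compl
    · exact Set.infinite_univ
  · intro v hv
    rw [map_zero]
    have h2 := h1 (fun i => v (Sum.inl (Sum.inl i))) (fun i => v (Sum.inl (Sum.inr i)))
      (fun k => v (Sum.inr k)) (fun i => hv (Sum.inl (Sum.inr i)) (mem_univ _))
    have h3 : Sum.elim (Sum.elim (fun i => v (Sum.inl (Sum.inl i)))
        (fun i => v (Sum.inl (Sum.inr i)))) (fun k => v (Sum.inr k)) = v := by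
      funext s
      rcases s with (i | i) | k <;> rfl
    rwa [h3] at h2

end Pool.Agent.Y563.SE
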