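import Pool.Agent.Y563.SE.Bad
import Pool.Agent.Y563.SE.Alg

/-! For almost all translations the solutions are generic. -/

set_option autoImplicit false

namespace Pool.Agent.Y563.SE

open MeasureTheory Set Filter Topology MvPolynomial

variable {n : ℕ}

/-- the point `(z, e^z)` -/
noncomputable def Ev (z : Fin n → ℂ) : Fin n ⊕ Fin n → ℂ :=
  Sum.elim z (fun i => Complex.exp (z i))

/-- the embedding of `J` -/
noncomputable def em {J : Finset (Fin n ⊕ Fin n)} (hJ : J.card ≤ n) : J → Fin n :=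
  fun j => Fin.castLE hJ (J.equivFin j)

theorem em_inj {J : Finset (Fin n ⊕ Fin n)} (hJ : J.card ≤ n) : Function.Injective (em hJ) :=
  (Fin.castLE_injective hJ).comp J.equivFin.injective

theorem null_lt (J : Finset (Fin n ⊕ Fin n)) (p : Fin n ⊕ Fin n → MvPolynomial (Fin n ⊕ Fin n) ℂ)
    (hp : ∀ i ∉ J, ((p i).vars : Set (Fin n ⊕ Fin n)) ⊆ insert i (J : Set (Fin n ⊕ Fin n)))
    (hJ : J.card < n) :
    volume (Ph '' {q | (∀ i ∉ J, eval q.2 (p i) = 0 ∧ eval q.2 (pderiv i (p i)) ≠ 0) ∧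
      (∀ i, q.2 (Sum.inr i) ≠ 0)}) = 0 := by
  have h1 := null_bad J p hp (em hJ.le) (em_inj hJ.le)
    (fun x => x (Sum.inr ⟨J.card, hJ⟩)) (differentiable_apply _) ⟨fun _ => 1, one_ne_zero⟩
  refine measure_mono_null (image_mono ?_) h1
  rintro q ⟨hq1, hq2⟩
  refine ⟨hq1, hq2, ?_⟩
  show Wx (em hJ.le) q.2 ⟨J.card, hJ⟩ = 0
  unfold Wx
  rw [Function.extend_apply']
  · rfl
  · rintro ⟨j, hj⟩
    have h2 := congrArg Fin.val hj
    simp only [em, Fin.val_castLE] at h2
    have h3 := (J.equivFin j).2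
    omega

theorem null_eq (J : Finset (Fin n ⊕ Fin n)) (p : Fin n ⊕ Fin n → MvPolynomial (Fin n ⊕ Fin n) ℂ)
    (hp : ∀ i ∉ J, ((p i).vars : Set (Fin n ⊕ Fin n)) ⊆ insert i (J : Set (Fin n ⊕ Fin n)))
    (hJ : J.card ≤ n) (f : MvPolynomial ((Fin n ⊕ Fin n) ⊕ J) ℂ) (hf : f ≠ 0) :
    volume (Ph '' {q | (∀ i ∉ J, eval q.2 (p i) = 0 ∧ eval q.2 (pderiv i (p i)) ≠ 0) ∧
      (∀ i, q.2 (Sum.inr i) ≠ 0) ∧ eval (Sum.elim (Ev q.1) (fun j : J => q.2 j)) f = 0}) = 0 := by
  have h0 : ∃ (z : Fin n → ℂ) (w : J → ℂ),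
      eval (Sum.elim (Sum.elim z (fun i => Complex.exp (z i))) w) f ≠ 0 := by
    by_contra hcon
    push Not at hcon
    exact hf (indep_exp f hcon)
  have hd : Differentiable ℂ (fun x : Fin n ⊕ Fin n → ℂ =>
      eval (Sum.elim (Ev fun i => x (Sum.inl i)) (fun j : J => x (Sum.inr (em hJ j)))) f) := by
    have h1 : Differentiable ℂ (fun y : (Fin n ⊕ Fin n) ⊕ J → ℂ => eval y f) :=
      (eval_contDiff f).differentiable (by simp)
    refine h1.comp ?_
    rw [differentiable_pi]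
    rintro ((i | i) | j)
    · exact differentiable_apply _
    · exact (differentiable_apply (𝕜 := ℂ) (Sum.inl i : Fin n ⊕ Fin n)).cexp
    · exact differentiable_apply _
  obtain ⟨z, w, hzw⟩ := h0
  have h1 := null_bad J p hp (em hJ) (em_inj hJ) _ hd
    ⟨Sum.elim z (Function.extend (em hJ) w 0), by
      have : (Sum.elim (Ev fun i => (Sum.elim z (Function.extend (em hJ) w 0) :
          Fin n ⊕ Fin n → ℂ) (Sum.inl i)) (fun j : J => (Sum.elim z (Function.extend (em hJ) w 0) :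
          Fin n ⊕ Fin n → ℂ) (Sum.inr (em hJ j)))) =
          Sum.elim (Sum.elim z (fun i => Complex.exp (z i))) w := by
        funext s
        rcases s with (i | i) | j
        · rfl
        · rfl
        · simp only [Sum.elim_inr]
          rw [(em_inj hJ).extend_apply]
      rw [this]
      exact hzw⟩
  refine measure_mono_null (image_mono ?_) h1
  rintro q ⟨hq1, hq2, hq3⟩
  refine ⟨hq1, hq2, ?_⟩
  show eval (Sum.elim (Ev fun i => q.1 i) (fun j : J => Wx (em hJ) q.2 (em hJ j))) f = 0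
  have : (fun j : J => Wx (em hJ) q.2 (em hJ j)) = fun j : J => q.2 j := by
    funext j
    unfold Wx
    rw [(em_inj hJ).extend_apply]
  rw [this]
  exact hq3

/-- **Genericity.** For almost all `c = (a, b)`: if `z - a = u₁`, `e^z / b = u₂` and `u` satisfies
a nontrivial relation over `F` between any `n + 1` of its coordinates, then the `3 n` numbers
`z, e^z, u_J` are independent over `F` for some `J` with `n` elements. -/
theorem generic (F : Subfield ℂ) [Countable F]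
    (R : Finset (Fin n ⊕ Fin n) → MvPolynomial (Fin n ⊕ Fin n) F)
    (hR : ∀ J', J'.card = n + 1 → R J' ≠ 0 ∧ (R J').vars ⊆ J') :
    ∀ᵐ c : Fin n ⊕ Fin n → ℂ, ∀ (z : Fin n → ℂ) (u : Fin n ⊕ Fin n → ℂ),
      (∀ i, u (Sum.inr i) ≠ 0) → Ph (z, u) = c → (∀ J', J'.card = n + 1 → aeval u (R J') = 0) →
      ∃ J : Finset (Fin n ⊕ Fin n), J.card = n ∧
        AlgebraicIndependent F (Sum.elim (Ev z) (fun j : J => u j)) := by
  classical
  have hc1 : Countable (MvPolynomial (Fin n ⊕ Fin n) F) := countable_mvPolynomial _ _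
  have hc2 : ∀ J : Finset (Fin n ⊕ Fin n), Countable (MvPolynomial ((Fin n ⊕ Fin n) ⊕ J) F) :=
    fun J => countable_mvPolynomial _ _
  have key1 : ∀ᵐ c : Fin n ⊕ Fin n → ℂ, ∀ (J : Finset (Fin n ⊕ Fin n))
      (p : Fin n ⊕ Fin n → MvPolynomial (Fin n ⊕ Fin n) F),
      (∀ i ∉ J, (p i).vars ⊆ insert i J) → J.card < n →
      c ∉ (Ph '' {q | (∀ i ∉ J, eval q.2 (map (algebraMap F ℂ) (p i)) = 0 ∧
        eval q.2 (pderiv i (map (algebraMap F ℂ) (p i))) ≠ 0) ∧ (∀ i, q.2 (Sum.inr i) ≠ 0)}) := by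
    rw [ae_all_iff]
    intro J
    rw [ae_all_iff]
    intro p
    by_cases h : (∀ i ∉ J, (p i).vars ⊆ insert i J) ∧ J.card < n
    · have h1 := null_lt J (fun i => map (algebraMap F ℂ) (p i)) (by
        intro i hi k hk
        have h2 := vars_map (algebraMap F ℂ) (p := p i) hk
        have h3 := h.1 i hi h2
        simpa using h3) h.2
      have h2 := measure_eq_zero_iff_ae_notMem.1 h1
      filter_upwards [h2] with c hc _ _
      exact hc
    · exact Eventually.of_forall fun c h1 h2 => absurd ⟨h1, h2⟩ h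
  have key2 : ∀ᵐ c : Fin n ⊕ Fin n → ℂ, ∀ (J : Finset (Fin n ⊕ Fin n))
      (p : Fin n ⊕ Fin n → MvPolynomial (Fin n ⊕ Fin n) F)
      (f : MvPolynomial ((Fin n ⊕ Fin n) ⊕ J) F),
      (∀ i ∉ J, (p i).vars ⊆ insert i J) → J.card ≤ n → f ≠ 0 →
      c ∉ (Ph '' {q | (∀ i ∉ J, eval q.2 (map (algebraMap F ℂ) (p i)) = 0 ∧
        eval q.2 (pderiv i (map (algebraMap F ℂ) (p i))) ≠ 0) ∧ (∀ i, q.2 (Sum.inr i) ≠ 0) ∧
        eval (Sum.elim (Ev q.1) (fun j : J => q.2 j)) (map (algebraMap F ℂ) f) = 0}) := by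
    rw [ae_all_iff]
    intro J
    rw [ae_all_iff]
    intro p
    rw [ae_all_iff]
    intro f
    by_cases h : (∀ i ∉ J, (p i).vars ⊆ insert i J) ∧ J.card ≤ n ∧ f ≠ 0
    · have h1 := null_eq J (fun i => map (algebraMap F ℂ) (p i)) (by
        intro i hi k hk
        have h2 := vars_map (algebraMap F ℂ) (p := p i) hk
        have h3 := h.1 i hi h2
        simpa using h3) h.2.1 (map (algebraMap F ℂ) f) (by
          intro h0
          apply h.2.2
          exact (map_injective _ (algebraMap F ℂ).injective) (by rw [h0, map_zero]))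
      have h2 := measure_eq_zero_iff_ae_notMem.1 h1
      filter_upwards [h2] with c hc _ _ _
      exact hc
    · exact Eventually.of_forall fun c h1 h2 h3 => absurd ⟨h1, h2, h3⟩ h
  filter_upwards [key1, key2] with c hc1 hc2 z u hu hzu hRu
  obtain ⟨J, hJ, p, hp⟩ := exists_data (F := F) u
  have hcard : J.card ≤ n := by
    by_contra hcon
    push Not at hcon
    obtain ⟨J', hJ'J, hJ'⟩ := Finset.exists_subset_card_eq (show n + 1 ≤ J.card by omega)
    obtain ⟨h1, h2⟩ := hR J' hJ'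
    exact h1 (eq_zero_of_indep hJ (h2.trans hJ'J) (hRu J' hJ'))
  have hev : ∀ g : MvPolynomial (Fin n ⊕ Fin n) F, eval u (map (algebraMap F ℂ) g) = aeval u g := by
    intro g
    rw [eval_map, aeval_def]
  have hpe : ∀ i ∉ J, eval u (map (algebraMap F ℂ) (p i)) = 0 ∧
      eval u (pderiv i (map (algebraMap F ℂ) (p i))) ≠ 0 := by
    intro i hi
    refine ⟨by rw [hev]; exact (hp i hi).2.1, ?_⟩
    rw [pderiv_map, hev]
    exact (hp i hi).2.2
  refine ⟨J, ?_, ?_⟩
  · by_contra hne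
    refine hc1 J p (fun i hi => (hp i hi).1) (lt_of_le_of_ne hcard hne) ?_
    exact ⟨(z, u), ⟨hpe, hu⟩, hzu⟩
  · unfold AlgebraicIndependent
    rw [injective_iff_map_eq_zero]
    intro f hf
    by_contra hf0
    refine hc2 J p f (fun i hi => (hp i hi).1) hcard hf0 ?_
    refine ⟨(z, u), ⟨hpe, hu, ?_⟩, hzu⟩
    rw [eval_map, ← aeval_def]
    exact hf

end Pool.Agent.Y563.SE
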