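import Pool.Agent.Y563.SE.Null

/-! The exceptional translations form a null set: local part. -/

set_option autoImplicit false

namespace Pool.Agent.Y563.SE

open MeasureTheory Set Filter Topology MvPolynomial

/-- the differential of `p` at `x` -/
noncomputable def dif {σ : Type} [Fintype σ] (p : MvPolynomial σ ℂ) (x : σ → ℂ) : (σ → ℂ) →L[ℂ] ℂ :=
  ∑ i, (eval x (pderiv i p)) • (ContinuousLinearMap.proj (R := ℂ) (φ := fun _ : σ => ℂ) i)

theorem dif_apply {σ : Type} [Fintype σ] (p : MvPolynomial σ ℂ) (x v : σ → ℂ) :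
    dif p x v = ∑ i, eval x (pderiv i p) * v i := by
  unfold dif
  rw [ContinuousLinearMap.sum_apply]
  rfl

theorem hasStrictFDerivAt_eval {σ : Type} [Fintype σ] (p : MvPolynomial σ ℂ) (x : σ → ℂ) :
    HasStrictFDerivAt (fun x : σ → ℂ => eval x p) (dif p x) x := by
  classical
  induction p using MvPolynomial.induction_on with
  | C a =>
    have h := hasStrictFDerivAt_const (𝕜 := ℂ) a x
    have e : dif (C a : MvPolynomial σ ℂ) x = 0 := by
      ext v
      simp [dif_apply]
    rw [e]
    simpa using h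
  | add p q hp hq =>
    have h := hp.add hq
    have e : dif (p + q) x = dif p x + dif q x := by
      refine ContinuousLinearMap.ext fun v => ?_
      rw [ContinuousLinearMap.add_apply, dif_apply, dif_apply, dif_apply, ← Finset.sum_add_distrib]
      refine Finset.sum_congr rfl fun i _ => ?_
      rw [map_add, map_add, add_mul]
    rw [e]
    refine h.congr_of_eventuallyEq (Eventually.of_forall fun y => ?_)
    simp
  | mul_X p j hp =>
    have h0 : HasStrictFDerivAt (fun x : σ → ℂ => x j)
        (ContinuousLinearMap.proj (R := ℂ) (φ := fun _ : σ => ℂ) j) x :=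
      (ContinuousLinearMap.proj (R := ℂ) (φ := fun _ : σ => ℂ) j).hasStrictFDerivAt
    have h := hp.mul h0
    have e : dif (p * X j) x =
      eval x p • (ContinuousLinearMap.proj (R := ℂ) (φ := fun _ : σ => ℂ) j) + x j • dif p x := by
      refine ContinuousLinearMap.ext fun v => ?_
      have e0 : (eval x p • (ContinuousLinearMap.proj (R := ℂ) (φ := fun _ : σ => ℂ) j) +
        x j • dif p x) v = eval x p * v j + x j * dif p x v := rfl
      rw [e0, dif_apply, dif_apply, Finset.mul_sum]
      have e1 : ∀ i, (eval x (pderiv i (p * X j))) * v i =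
          (if i = j then eval x p * v i else 0) + x j * (eval x (pderiv i p) * v i) := by
        intro i
        rw [Derivation.leibniz, pderiv_X]
        simp only [smul_eq_mul, map_add, map_mul, eval_X]
        by_cases hij : i = j
        · subst hij
          simp
          ring
        · rw [if_neg hij, Pi.single_eq_of_ne (fun h => hij h.symm)]
          simp
          ring
      rw [Finset.sum_congr rfl fun i _ => e1 i, Finset.sum_add_distrib, Finset.sum_ite_eq']
      simp
    rw [e]
    refine h.congr_of_eventuallyEq (Eventually.of_forall fun y => ?_)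
    simp

theorem eval_contDiff {σ : Type} [Fintype σ] (p : MvPolynomial σ ℂ) :
    ContDiff ℂ ⊤ (fun x : σ → ℂ => eval x p) := by
  induction p using MvPolynomial.induction_on with
  | C a => simpa using contDiff_const
  | add p q hp hq => simpa using hp.add hq
  | mul_X p j hp => simpa using hp.mul (contDiff_apply ℂ ℂ j)

variable {n : ℕ}

/-- the map `(z, u) ↦ (z - u₁, e^z / u₂)` -/
noncomputable def Ph (q : (Fin n → ℂ) × (Fin n ⊕ Fin n → ℂ)) : Fin n ⊕ Fin n → ℂ :=
  Sum.elim (fun i => q.1 i - q.2 (Sum.inl i)) (fun i => Complex.exp (q.1 i) / q.2 (Sum.inr i))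

/-- solving `p_i(u_J, u_i) = 0`, `i ∉ J` -/
noncomputable def Ps (J : Finset (Fin n ⊕ Fin n)) (p : Fin n ⊕ Fin n → MvPolynomial (Fin n ⊕ Fin n) ℂ)
    (u : Fin n ⊕ Fin n → ℂ) : Fin n ⊕ Fin n → ℂ :=
  fun i => by classical exact if i ∈ J then u i else eval u (p i)

open Classical in
theorem exists_local (J : Finset (Fin n ⊕ Fin n))
    (p : Fin n ⊕ Fin n → MvPolynomial (Fin n ⊕ Fin n) ℂ)
    (hp : ∀ i ∉ J, ((p i).vars : Set (Fin n ⊕ Fin n)) ⊆ insert i J)
    (u0 : Fin n ⊕ Fin n → ℂ) (hu0 : ∀ i ∉ J, eval u0 (pderiv i (p i)) ≠ 0) :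
    ∃ (g : (Fin n ⊕ Fin n → ℂ) → (Fin n ⊕ Fin n → ℂ)) (U Y : Set (Fin n ⊕ Fin n → ℂ)),
      IsOpen U ∧ u0 ∈ U ∧ IsOpen Y ∧ DifferentiableOn ℂ g Y ∧ (∀ u ∈ U, Ps J p u ∈ Y ∧
        g (Ps J p u) = u) := by
  have hcd : ContDiff ℂ ⊤ (Ps J p) := by
    rw [contDiff_pi]
    intro i
    unfold Ps
    by_cases hi : i ∈ J
    · simp only [if_pos hi]
      exact contDiff_apply ℂ ℂ i
    · simp only [if_neg hi]
      exact eval_contDiff _
  -- the derivative
  let L : (Fin n ⊕ Fin n → ℂ) →L[ℂ] (Fin n ⊕ Fin n → ℂ) :=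
    ContinuousLinearMap.pi fun i => if i ∈ J then
      (ContinuousLinearMap.proj (R := ℂ) (φ := fun _ : Fin n ⊕ Fin n => ℂ) i) else dif (p i) u0
  have hL : HasFDerivAt (Ps J p) L u0 := by
    rw [hasFDerivAt_pi]
    intro i
    unfold Ps
    by_cases hi : i ∈ J
    · simp only [if_pos hi]
      exact (ContinuousLinearMap.proj (R := ℂ) (φ := fun _ : Fin n ⊕ Fin n => ℂ) i).hasFDerivAt
    · simp only [if_neg hi]
      exact (hasStrictFDerivAt_eval (p i) u0).hasFDerivAt
  have hinj : Function.Injective L := by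
    rw [injective_iff_map_eq_zero]
    intro v hv
    have h1 : ∀ i ∈ J, v i = 0 := by
      intro i hi
      have := congrFun hv i
      simpa [L, hi] using this
    funext i
    by_cases hi : i ∈ J
    · exact h1 i hi
    · have h2 := congrFun hv i
      simp only [L, ContinuousLinearMap.coe_pi', if_neg hi, Pi.zero_apply, dif_apply] at h2
      rw [Finset.sum_eq_single i] at h2
      · exact (mul_eq_zero.1 h2).resolve_left (hu0 i hi)
      · intro k _ hk
        by_cases hkJ : k ∈ J
        · rw [h1 k hkJ, mul_zero]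
        · have : pderiv k (p i) = 0 := by
            apply pderiv_eq_zero_of_notMem_vars
            intro hkv
            rcases hp i hi hkv with h | h
            · exact hk h
            · exact hkJ h
          rw [this, map_zero, zero_mul]
      · intro h
        exact absurd (Finset.mem_univ i) h
  let L' : (Fin n ⊕ Fin n → ℂ) ≃L[ℂ] (Fin n ⊕ Fin n → ℂ) :=
    (LinearEquiv.ofInjectiveEndo (L : (Fin n ⊕ Fin n → ℂ) →ₗ[ℂ] (Fin n ⊕ Fin n → ℂ))
      hinj).toContinuousLinearEquiv
  have hL' : HasFDerivAt (Ps J p) (L' : (Fin n ⊕ Fin n → ℂ) →L[ℂ] (Fin n ⊕ Fin n → ℂ)) u0 := by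
    have : (L' : (Fin n ⊕ Fin n → ℂ) →L[ℂ] (Fin n ⊕ Fin n → ℂ)) = L := by
      ext v i
      rfl
    rw [this]
    exact hL
  have hcda : ContDiffAt ℂ ⊤ (Ps J p) u0 := hcd.contDiffAt
  have hn : (⊤ : WithTop ℕ∞) ≠ 0 := by simp
  set R := hcda.toOpenPartialHomeomorph (Ps J p) hL' hn with hR
  have hinv := hcda.to_localInverse hL' hn
  set g := hcda.localInverse hL' hn with hg
  -- `g` is differentiable near `Ps J p u0`
  have hgd : ∀ᶠ y in 𝓝 (Ps J p u0), DifferentiableAt ℂ g y := by
    have h1 : ContDiffAt ℂ 1 g (Ps J p u0) := hinv.of_le (by exact le_top)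
    have h2 := h1.eventually (by simp)
    filter_upwards [h2] with y hy
    exact hy.differentiableAt (by simp)
  obtain ⟨Y, hYs, hYo, hY0⟩ := eventually_nhds_iff.1 hgd
  refine ⟨g, R.source ∩ Ps J p ⁻¹' Y, Y, R.open_source.inter (hYo.preimage hcd.continuous), ?_, hYo,
    fun y hy => (hYs y hy).differentiableWithinAt, ?_⟩
  · refine ⟨?_, hY0⟩
    exact hcda.mem_toOpenPartialHomeomorph_source hL' hn
  · intro u hu
    refine ⟨hu.2, ?_⟩
    exact R.left_inv hu.1

end Pool.Agent.Y563.SE
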