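import Pool.Agent.W996.EC.Final

/-! Translates of the varieties of the theorem `ecV`. -/

set_option autoImplicit false

namespace Pool.Agent.Y563.SE

open MvPolynomial

variable {n : ℕ}

/-- substitution `x ↦ x + d` -/
noncomputable def sh (D : Fin n ⊕ Fin n → ℂ) :
    MvPolynomial (Fin n ⊕ Fin n) ℂ →ₐ[ℂ] MvPolynomial (Fin n ⊕ Fin n) ℂ :=
  bind₁ (fun s => X s + C (D s))

theorem eval_sh (D p : Fin n ⊕ Fin n → ℂ) (f : MvPolynomial (Fin n ⊕ Fin n) ℂ) :
    eval p (sh D f) = eval (fun s => p s + D s) f := by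
  unfold sh
  rw [← MvPolynomial.coe_aeval_eq_eval, ← MvPolynomial.coe_aeval_eq_eval]
  simp only [RingHom.coe_coe]
  rw [MvPolynomial.aeval_bind₁]
  congr 1
  simp

theorem vars_sh (D : Fin n ⊕ Fin n → ℂ) (f : MvPolynomial (Fin n ⊕ Fin n) ℂ) :
    (sh D f).vars ⊆ f.vars := by
  classical
  unfold sh
  refine (vars_bind₁ _ _).trans ?_
  intro k hk
  obtain ⟨i, hi, hki⟩ := Finset.mem_biUnion.1 hk
  have h1 := vars_add_subset _ _ hki
  rw [vars_X, vars_C, Finset.union_empty, Finset.mem_singleton] at h1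
  rwa [h1]

theorem ec_translate (P : Ideal (MvPolynomial (Fin n ⊕ Fin n) ℂ))
    (V : Set (Fin n ⊕ Fin n → ℂ)) (hP : P.IsPrime)
    (hV : V = {p | (∀ f ∈ P, eval p f = 0) ∧ ∀ j : Fin n, p (Sum.inr j) ≠ 0})
    (hadd : ∀ m : Fin n → ℤ, m ≠ 0 → ∀ c : ℂ, ∃ p ∈ V,
      (∑ j : Fin n, (m j : ℂ) * p (Sum.inl j)) ≠ c)
    (hmul : ∀ m : Fin n → ℤ, m ≠ 0 → ∀ c : ℂ, ∃ p ∈ V, (∏ j : Fin n, p (Sum.inr j) ^ (m j)) ≠ c)
    (hdim : ∃ J : Finset (Fin n ⊕ Fin n), n ≤ J.card ∧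
      ∀ f : MvPolynomial (Fin n ⊕ Fin n) ℂ, f.vars ⊆ J → (∀ p ∈ V, eval p f = 0) → f = 0)
    (hcurve : ∀ i j : Fin n, ∃ f : MvPolynomial (Fin 2) ℂ, f ≠ 0 ∧
      ∀ p ∈ V, eval ![p (Sum.inr i), p (Sum.inr j)] f = 0)
    (H : MvPolynomial (Fin n) ℂ) (hH : ∃ p ∈ V, eval (fun j => p (Sum.inr j)) H ≠ 0)
    (d : Fin n → ℂ) :
    ∃ w : Fin n → ℂ, (Sum.elim (fun i => w i + d i) (fun i => Complex.exp (w i)) :
      Fin n ⊕ Fin n → ℂ) ∈ V ∧ eval (fun j => Complex.exp (w j)) H ≠ 0 := by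
  obtain ⟨D, hD⟩ : ∃ D : Fin n ⊕ Fin n → ℂ, D = Sum.elim d 0 := ⟨_, rfl⟩
  -- the translated variety
  obtain ⟨P', hPP', hP'⟩ : ∃ P' : Ideal (MvPolynomial (Fin n ⊕ Fin n) ℂ),
      (∀ f, f ∈ P' ↔ sh (-D) f ∈ P) ∧ P'.IsPrime :=
    ⟨P.comap (sh (-D)), fun f => Ideal.mem_comap, Ideal.comap_isPrime _ _⟩
  obtain ⟨V', hmem⟩ : ∃ V' : Set (Fin n ⊕ Fin n → ℂ), ∀ p, p ∈ V' ↔ (fun s => p s + D s) ∈ V :=
    ⟨{p | (fun s => p s + D s) ∈ V}, fun p => Iff.rfl⟩
  have hback : ∀ p ∈ V, (fun s => p s - D s) ∈ V' := by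
    intro p hp
    rw [hmem]
    simpa using hp
  have hinr : ∀ (p : Fin n ⊕ Fin n → ℂ) (j : Fin n), p (Sum.inr j) + D (Sum.inr j) = p (Sum.inr j) := by
    intro p j
    rw [hD]
    simp
  have hinr' : ∀ (p : Fin n ⊕ Fin n → ℂ) (j : Fin n), p (Sum.inr j) - D (Sum.inr j) = p (Sum.inr j) := by
    intro p j
    rw [hD]
    simp
  have hsh : ∀ (f : MvPolynomial (Fin n ⊕ Fin n) ℂ), sh (-D) (sh D f) = f := by
    intro f
    apply MvPolynomial.funext
    intro x
    rw [eval_sh, eval_sh]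
    congr 2
    funext s
    simp
  have hV' : V' = {p | (∀ f ∈ P', eval p f = 0) ∧ ∀ j : Fin n, p (Sum.inr j) ≠ 0} := by
    ext p
    rw [hmem, hV]
    simp only [Set.mem_ofPred_eq]
    constructor
    · rintro ⟨h1, h2⟩
      refine ⟨?_, ?_⟩
      · intro f hf
        have h3 := h1 (sh (-D) f) ((hPP' f).1 hf)
        rw [eval_sh] at h3
        simpa using h3
      · intro j
        have := h2 j
        rwa [hinr] at this
    · rintro ⟨h1, h2⟩
      refine ⟨?_, ?_⟩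
      · intro g hg
        have h3 := h1 (sh D g) (by
          rw [hPP', hsh]
          exact hg)
        rwa [eval_sh] at h3
      · intro j
        rw [hinr]
        exact h2 j
  obtain ⟨w, hw1, hw2⟩ := Pool.Agent.W996.EC.ecV n P' V' hP' hV' (by
      intro m hm c
      obtain ⟨p, hp, hpc⟩ := hadd m hm (c + ∑ j, (m j : ℂ) * d j)
      refine ⟨_, hback p hp, ?_⟩
      intro h
      apply hpc
      rw [← h, ← Finset.sum_add_distrib]
      refine Finset.sum_congr rfl fun j _ => ?_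
      rw [hD, Sum.elim_inl]
      ring) (by
      intro m hm c
      obtain ⟨p, hp, hpc⟩ := hmul m hm c
      refine ⟨_, hback p hp, ?_⟩
      have : (∏ j : Fin n, (p (Sum.inr j) - D (Sum.inr j)) ^ (m j)) =
          ∏ j : Fin n, p (Sum.inr j) ^ (m j) := Finset.prod_congr rfl fun j _ => by rw [hinr']
      rw [this]
      exact hpc) (by
      obtain ⟨J, hJ, hJ2⟩ := hdim
      refine ⟨J, hJ, ?_⟩
      intro f hf hfV
      have h1 : sh (-D) f = 0 := by
        apply hJ2 _ ((vars_sh _ _).trans hf)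
        intro p hp
        rw [eval_sh]
        have := hfV _ (hback p hp)
        simpa [sub_eq_add_neg] using this
      have h2 : sh D (sh (-D) f) = f := by
        apply MvPolynomial.funext
        intro x
        rw [eval_sh, eval_sh]
        congr 2
        funext s
        simp
      rw [← h2, h1, map_zero]) (by
      intro i j
      obtain ⟨f, hf0, hf⟩ := hcurve i j
      refine ⟨f, hf0, ?_⟩
      intro p hp
      have := hf _ ((hmem p).1 hp)
      rwa [hinr, hinr] at this) H (by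
      obtain ⟨p, hp, hpH⟩ := hH
      refine ⟨_, hback p hp, ?_⟩
      have : (fun j => p (Sum.inr j) - D (Sum.inr j)) = fun j => p (Sum.inr j) := by
        funext j
        rw [hinr']
      rw [this]
      exact hpH)
  refine ⟨w, ?_, hw2⟩
  have h1 : (Sum.elim w (fun i : Fin n => Complex.exp (w i)) : Fin n ⊕ Fin n → ℂ) ∈ V' := by
    rw [hV']
    refine ⟨hw1, fun j => ?_⟩
    rw [Sum.elim_inr]
    exact Complex.exp_ne_zero _
  rw [hmem] at h1
  have h2 : (fun s => (Sum.elim w (fun i : Fin n => Complex.exp (w i)) : Fin n ⊕ Fin n → ℂ) s + D s) =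
      (Sum.elim (fun i => w i + d i) (fun i => Complex.exp (w i)) : Fin n ⊕ Fin n → ℂ) := by
    funext s
    rw [hD]
    rcases s with i | i
    · rfl
    · simp
  rwa [h2] at h1

end Pool.Agent.Y563.SE
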