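import Pool.Agent.Y563.SE.Alg

/-! Transcendence degrees of finitely generated fields. -/

set_option autoImplicit false

namespace Pool.Agent.Y563.SE

open MvPolynomial Cardinal

section
variable {σ : Type} [Fintype σ] {K : Type} [Field K] [Algebra K ℂ]

/-- the generators, as elements of the field -/
noncomputable def gn (K : Type) [Field K] [Algebra K ℂ] (v : σ → ℂ) :
    σ → IntermediateField.adjoin K (Set.range v) :=
  fun i => ⟨v i, IntermediateField.subset_adjoin K _ ⟨i, rfl⟩⟩

theorem isAlg (v : σ → ℂ) :
    Algebra.IsAlgebraic (Algebra.adjoin K (Set.range (gn K v)))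
      (IntermediateField.adjoin K (Set.range v)) := by
  constructor
  rintro ⟨x, hx⟩
  induction hx using IntermediateField.adjoin_induction with
  | mem x hx =>
    obtain ⟨i, rfl⟩ := hx
    exact isAlgebraic_algebraMap
      (⟨gn K v i, Algebra.subset_adjoin ⟨i, rfl⟩⟩ : Algebra.adjoin K (Set.range (gn K v)))
  | algebraMap x =>
    exact isAlgebraic_algebraMap (algebraMap K (Algebra.adjoin K (Set.range (gn K v))) x)
  | add x y hx hy h1 h2 => exact h1.add h2
  | inv x hx h1 => exact h1.inv
  | mul x y hx hy h1 h2 => exact h1.mul h2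

theorem trdeg_le_card (v : σ → ℂ) :
    Algebra.trdeg K (IntermediateField.adjoin K (Set.range v)) ≤ Fintype.card σ := by
  have := isAlg (K := K) v
  refine (Algebra.IsAlgebraic.trdeg_le_cardinalMk K (Set.range (gn K v))).trans ?_
  refine Cardinal.mk_range_le.trans ?_
  rw [Cardinal.mk_fintype]

/-- upper bound from relations -/
theorem trdeg_le_of_rel (v : σ → ℂ) (n : ℕ)
    (h : ∀ J : Finset σ, J.card = n + 1 → ∃ r : MvPolynomial σ K, r ≠ 0 ∧ r.vars ⊆ J ∧
      aeval v r = 0) :
    Algebra.trdeg K (IntermediateField.adjoin K (Set.range v)) ≤ n := by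
  classical
  have := isAlg (K := K) v
  obtain ⟨t, hts, ht⟩ := exists_isTranscendenceBasis_subset (R := K)
    (Set.range (gn K v))
  rw [← ht.cardinalMk_eq_trdeg]
  by_contra hcon
  push Not at hcon
  -- `n + 1` elements of `t`
  have htf : t.Finite := (Set.finite_range _).subset hts
  have := htf.fintype
  rw [Cardinal.mk_fintype] at hcon
  have h1 : n + 1 ≤ Fintype.card t := by exact_mod_cast hcon
  choose i hi using fun x : t => hts x.2
  have hinj : Function.Injective i := by
    intro x y hxy
    apply Subtype.ext
    rw [← hi x, ← hi y, hxy]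
  have h2 : n + 1 ≤ (Finset.univ.image i).card := by
    rw [Finset.card_image_of_injective _ hinj, Finset.card_univ]
    exact h1
  obtain ⟨J, hJ, hJc⟩ := Finset.exists_subset_card_eq h2
  obtain ⟨r, hr0, hrv, hr⟩ := h J hJc
  apply hr0
  have h3 : AlgebraicIndependent K (fun j : J => v j) := by
    have h4 : AlgebraicIndependent K ((IntermediateField.adjoin K (Set.range v)).val ∘
        ((↑) : t → IntermediateField.adjoin K (Set.range v))) := by
      rw [AlgHom.algebraicIndependent_iff]
      · exact ht.1
      · exact Subtype.val_injective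
    have h5 : ∀ j : J, ∃ x : t, i x = j := by
      intro j
      obtain ⟨x, _, hx⟩ := Finset.mem_image.1 (hJ j.2)
      exact ⟨x, hx⟩
    choose f hf using h5
    have hfi : Function.Injective f := by
      intro a b hab
      apply Subtype.ext
      rw [← hf a, ← hf b, hab]
    have h6 := h4.comp f hfi
    have h7 : ((IntermediateField.adjoin K (Set.range v)).val ∘
        ((↑) : t → IntermediateField.adjoin K (Set.range v))) ∘ f = fun j : J => v j := by
      funext j
      show ((f j : IntermediateField.adjoin K (Set.range v)) : ℂ) = v j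
      have h8 := hi (f j)
      rw [← h8, hf j]
      rfl
    rwa [h7] at h6
  exact eq_zero_of_indep h3 hrv hr

theorem le_trdeg {ι : Type} [Fintype ι] (M : IntermediateField K ℂ) (x : ι → ℂ)
    (hx : AlgebraicIndependent K x) (hM : ∀ i, x i ∈ M) :
    (Fintype.card ι : Cardinal) ≤ Algebra.trdeg K M := by
  have h1 : AlgebraicIndependent K (fun i => (⟨x i, hM i⟩ : M)) := by
    rw [← AlgHom.algebraicIndependent_iff M.val Subtype.val_injective]
    exact hx
  have h2 := h1.cardinalMk_le_trdeg
  rwa [Cardinal.mk_fintype] at h2

end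

/-- the transcendence degree over `K(c)` -/
theorem trdeg_adjoin_ge {σ τ ι : Type} [Fintype σ] [Fintype τ] [Fintype ι] {K : Type} [Field K]
    [Algebra K ℂ] (c : σ → ℂ) (v : τ → ℂ) (x : ι → ℂ)
    (hx : AlgebraicIndependent K x)
    (hM : ∀ i, x i ∈ IntermediateField.adjoin (IntermediateField.adjoin K (Set.range c))
      (Set.range v)) (n : ℕ) (hn : Fintype.card σ + n ≤ Fintype.card ι) :
    (n : Cardinal) ≤ Algebra.trdeg (IntermediateField.adjoin K (Set.range c))
      (IntermediateField.adjoin (IntermediateField.adjoin K (Set.range c)) (Set.range v)) := by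
  have h1 : (Fintype.card ι : Cardinal) ≤ Algebra.trdeg K
      (IntermediateField.adjoin (IntermediateField.adjoin K (Set.range c)) (Set.range v)) := by
    have h0 : AlgebraicIndependent K (fun i => (⟨x i, hM i⟩ :
        IntermediateField.adjoin (IntermediateField.adjoin K (Set.range c)) (Set.range v))) := by
      rw [← AlgHom.algebraicIndependent_iff
        ((IntermediateField.adjoin (IntermediateField.adjoin K (Set.range c))
          (Set.range v)).val.restrictScalars K) Subtype.val_injective]
      exact hx
    have h2 := h0.cardinalMk_le_trdeg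
    rwa [Cardinal.mk_fintype] at h2
  have h2 := trdeg_add_eq K (IntermediateField.adjoin K (Set.range c))
    (A := IntermediateField.adjoin (IntermediateField.adjoin K (Set.range c)) (Set.range v))
  have h3 := trdeg_le_card (K := K) c
  rw [← h2] at h1
  by_contra hcon
  push Not at hcon
  have h4 : Algebra.trdeg K (IntermediateField.adjoin K (Set.range c)) +
      Algebra.trdeg (IntermediateField.adjoin K (Set.range c))
      (IntermediateField.adjoin (IntermediateField.adjoin K (Set.range c)) (Set.range v)) <
      (Fintype.card σ : Cardinal) + n := by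
    obtain ⟨a, ha⟩ := Cardinal.lt_aleph0.1 (h3.trans_lt (Cardinal.nat_lt_aleph0 _))
    obtain ⟨b, hb⟩ := Cardinal.lt_aleph0.1 (hcon.trans (Cardinal.nat_lt_aleph0 _))
    rw [ha] at h3 ⊢
    rw [hb] at hcon ⊢
    have h5 : a ≤ Fintype.card σ := by exact_mod_cast h3
    have h6 : b < n := by exact_mod_cast hcon
    have h7 : a + b < Fintype.card σ + n := by omega
    exact_mod_cast h7
  have h5 : ((Fintype.card σ + n : ℕ) : Cardinal) ≤ (Fintype.card ι : Cardinal) := by
    exact_mod_cast hn
  push_cast at h5
  exact absurd (h1.trans_lt h4) (not_lt.2 h5)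

end Pool.Agent.Y563.SE
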