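import Pool.Agent.Y563.SE.Gen
import Pool.Agent.Y563.SE.Trd
import Pool.Agent.Y563.SE.Trans
import Pool.Agent.W333.ECV.A

/-! Exponential points on the translates of a variety. -/

set_option autoImplicit false

namespace Pool.Agent.Y563.SE

open MvPolynomial MeasureTheory

/-! ### descent of relations -/

section desc
variable {σ : Type} {K : Subfield ℂ}

/-- apply a linear form to the coefficients -/
noncomputable def La (l : ℂ →ₗ[K] K) (f : MvPolynomial σ ℂ) : MvPolynomial σ K :=
  ∑ m ∈ f.support, monomial m (l (coeff m f))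

theorem coeff_La (l : ℂ →ₗ[K] K) (f : MvPolynomial σ ℂ) (m : σ →₀ ℕ) :
    coeff m (La l f) = l (coeff m f) := by
  classical
  unfold La
  rw [coeff_sum]
  simp only [coeff_monomial]
  rw [Finset.sum_ite_eq']
  split_ifs with h
  · rfl
  · rw [notMem_support_iff.1 h, map_zero]

theorem La_add (l : ℂ →ₗ[K] K) (f g : MvPolynomial σ ℂ) : La l (f + g) = La l f + La l g := by
  ext m
  rw [coeff_La, coeff_add, coeff_add, coeff_La, coeff_La, map_add]

theorem La_mul (l : ℂ →ₗ[K] K) (f : MvPolynomial σ ℂ) (s : MvPolynomial σ K) :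
    La l (f * map (algebraMap K ℂ) s) = La l f * s := by
  classical
  ext m
  rw [coeff_La, coeff_mul, coeff_mul, map_sum]
  congr 1
  refine Finset.sum_congr rfl fun x _ => ?_
  rw [coeff_La, coeff_map]
  have : coeff x.1 f * (algebraMap K ℂ) (coeff x.2 s) = (coeff x.2 s) • coeff x.1 f := by
    rw [Algebra.smul_def, mul_comm]
  rw [this, map_smul, smul_eq_mul, mul_comm]

theorem La_mem (l : ℂ →ₗ[K] K) (S : Set (MvPolynomial σ K)) {f : MvPolynomial σ ℂ}
    (hf : f ∈ Ideal.span (map (algebraMap K ℂ) '' S)) :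
    ∀ a : MvPolynomial σ ℂ, La l (a * f) ∈ Ideal.span S := by
  induction hf using Submodule.span_induction with
  | mem x hx =>
    intro a
    obtain ⟨s, hs, rfl⟩ := hx
    rw [La_mul]
    exact Ideal.mul_mem_left _ _ (Ideal.subset_span hs)
  | zero =>
    intro a
    rw [mul_zero]
    have : La l (0 : MvPolynomial σ ℂ) = 0 := by
      ext m
      rw [coeff_La, coeff_zero, coeff_zero, map_zero]
    rw [this]
    exact zero_mem _
  | add x y _ _ hx hy =>
    intro a
    rw [mul_add, La_add]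
    exact add_mem (hx a) (hy a)
  | smul b x _ hx =>
    intro a
    have : a * (b • x) = (a * b) * x := by
      rw [smul_eq_mul]; ring
    rw [this]
    exact hx _

theorem descend (S : Set (MvPolynomial σ K)) (P : Ideal (MvPolynomial σ ℂ))
    (hK : P = Ideal.span (map (algebraMap K ℂ) '' S)) {f : MvPolynomial σ ℂ} (hf : f ∈ P)
    (hf0 : f ≠ 0) (J : Finset σ) (hJ : f.vars ⊆ J) :
    ∃ g : MvPolynomial σ K, g ≠ 0 ∧ g.vars ⊆ J ∧ map (algebraMap K ℂ) g ∈ P := by
  obtain ⟨m, hm⟩ := MvPolynomial.ne_zero_iff.1 hf0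
  obtain ⟨l, hl⟩ : ∃ l : ℂ →ₗ[K] K, l (coeff m f) ≠ 0 := by
    by_contra hcon
    push Not at hcon
    exact hm ((Module.forall_dual_apply_eq_zero_iff K (coeff m f)).1 hcon)
  refine ⟨La l f, ?_, ?_, ?_⟩
  · intro h
    apply hl
    rw [← coeff_La, h, coeff_zero]
  · intro k hk
    apply hJ
    rw [mem_vars] at hk ⊢
    obtain ⟨d, hd, hkd⟩ := hk
    refine ⟨d, ?_, hkd⟩
    rw [mem_support_iff] at hd ⊢
    rw [coeff_La] at hd
    intro h
    apply hd
    rw [h, map_zero]
  · have h1 := La_mem l S (hK ▸ hf) 1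
    rw [one_mul] at h1
    have h2 := Ideal.mem_map_of_mem (map (algebraMap K ℂ)) h1
    rw [Ideal.map_span] at h2
    rw [hK]
    exact h2

end desc

variable {n : ℕ}

/-- the translate of `V` by the element `c` of `ℂ^n × (ℂ^*)^n` -/
def Trs (c : Fin n ⊕ Fin n → ℂ) (V : Set (Fin n ⊕ Fin n → ℂ)) : Set (Fin n ⊕ Fin n → ℂ) :=
  {p | ∃ u ∈ V, p = Sum.elim (fun i => u (Sum.inl i) + c (Sum.inl i))
    (fun i => c (Sum.inr i) * u (Sum.inr i))}

theorem exists_pt (P : Ideal (MvPolynomial (Fin n ⊕ Fin n) ℂ))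
    (V : Set (Fin n ⊕ Fin n → ℂ)) (hP : P.IsPrime)
    (hV : V = {p | (∀ f ∈ P, eval p f = 0) ∧ ∀ j : Fin n, p (Sum.inr j) ≠ 0})
    (hadd : ∀ m : Fin n → ℤ, m ≠ 0 → ∀ c : ℂ, ∃ p ∈ V,
      (∑ j : Fin n, (m j : ℂ) * p (Sum.inl j)) ≠ c)
    (hmul : ∀ m : Fin n → ℤ, m ≠ 0 → ∀ c : ℂ, ∃ p ∈ V, (∏ j : Fin n, p (Sum.inr j) ^ (m j)) ≠ c)
    (hdim : ∃ J : Finset (Fin n ⊕ Fin n), n ≤ J.card ∧
      ∀ f : MvPolynomial (Fin n ⊕ Fin n) ℂ, f.vars ⊆ J → (∀ p ∈ V, eval p f = 0) → f = 0)
    (hcurve : ∀ i j : Fin n, ∃ f : MvPolynomial (Fin 2) ℂ, f ≠ 0 ∧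
      ∀ p ∈ V, eval ![p (Sum.inr i), p (Sum.inr j)] f = 0)
    (c : Fin n ⊕ Fin n → ℂ) (hc : ∀ i, c (Sum.inr i) ≠ 0)
    (H : MvPolynomial (Fin n) ℂ) (hH : ∃ p ∈ Trs c V, eval (fun j => p (Sum.inr j)) H ≠ 0) :
    ∃ z : Fin n → ℂ, Ev z ∈ Trs c V ∧ eval (fun j => Complex.exp (z j)) H ≠ 0 := by
  -- the polynomial `H (c y)`
  have hbind : ∀ y : Fin n → ℂ, eval y (bind₁ (fun j => C (c (Sum.inr j)) * X j) H) =
      eval (fun j => c (Sum.inr j) * y j) H := by
    intro y
    rw [← MvPolynomial.coe_aeval_eq_eval, ← MvPolynomial.coe_aeval_eq_eval]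
    simp only [RingHom.coe_coe]
    rw [MvPolynomial.aeval_bind₁]
    congr 1
    simp
  obtain ⟨w, hw1, hw2⟩ := ec_translate P V hP hV hadd hmul hdim hcurve
    (bind₁ (fun j => C (c (Sum.inr j)) * X j) H) (by
      obtain ⟨p, ⟨u, hu, rfl⟩, hp⟩ := hH
      refine ⟨u, hu, ?_⟩
      rw [hbind]
      simpa using hp) (fun i => Complex.log (c (Sum.inr i)) - c (Sum.inl i))
  refine ⟨fun i => w i + Complex.log (c (Sum.inr i)), ⟨_, hw1, ?_⟩, ?_⟩
  · funext s
    rcases s with i | i
    · simp only [Ev, Sum.elim_inl]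
      ring
    · simp only [Ev, Sum.elim_inr]
      rw [Complex.exp_add, Complex.exp_log (hc i), mul_comm]
  · rw [hbind] at hw2
    have : (fun j => Complex.exp (w j + Complex.log (c (Sum.inr j)))) =
        fun j => c (Sum.inr j) * Complex.exp (w j) := by
      funext j
      rw [Complex.exp_add, Complex.exp_log (hc j), mul_comm]
    rw [this]
    exact hw2

/-- for almost all translates all exponential points are generic -/
theorem generic_pts (P : Ideal (MvPolynomial (Fin n ⊕ Fin n) ℂ))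
    (V : Set (Fin n ⊕ Fin n → ℂ)) (hP : P.IsPrime)
    (hV : V = {p | (∀ f ∈ P, eval p f = 0) ∧ ∀ j : Fin n, p (Sum.inr j) ≠ 0})
    (hne : V.Nonempty)
    (hdim : ∀ J : Finset (Fin n ⊕ Fin n), J.card = n + 1 →
      ∃ f : MvPolynomial (Fin n ⊕ Fin n) ℂ, f ≠ 0 ∧ f.vars ⊆ J ∧ ∀ p ∈ V, eval p f = 0)
    (K : Subfield ℂ) [Countable K] (S : Set (MvPolynomial (Fin n ⊕ Fin n) K))
    (hK : P = Ideal.span (map (algebraMap K ℂ) '' S)) :
    ∀ᵐ c : Fin n ⊕ Fin n → ℂ, ∀ z : Fin n → ℂ, Ev z ∈ Trs c V →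
      Algebra.trdeg (IntermediateField.adjoin K (Set.range c))
        (IntermediateField.adjoin (IntermediateField.adjoin K (Set.range c)) (Set.range (Ev z))) =
        n := by
  classical
  -- relations over `K`
  have hrel : ∀ J : Finset (Fin n ⊕ Fin n), ∃ g : MvPolynomial (Fin n ⊕ Fin n) K,
      J.card = n + 1 → g ≠ 0 ∧ g.vars ⊆ J ∧ ∀ p ∈ V, aeval p g = 0 := by
    intro J
    by_cases hJ : J.card = n + 1
    · obtain ⟨f, hf0, hfJ, hfV⟩ := hdim J hJ
      have hfP : f ∈ P := by
        refine Pool.Agent.W333.ECV.nullst P hP (∏ j : Fin n, X (Sum.inr j)) ?_ f ?_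
        · intro hg
          obtain ⟨p, hp⟩ := hne
          rw [hV] at hp
          have h1 := hp.1 _ hg
          rw [map_prod, Finset.prod_eq_zero_iff] at h1
          obtain ⟨j, _, hj⟩ := h1
          rw [eval_X] at hj
          exact hp.2 j hj
        · intro p hp hg
          apply hfV
          rw [hV]
          refine ⟨hp, fun j hj => hg ?_⟩
          rw [map_prod]
          exact Finset.prod_eq_zero (Finset.mem_univ j) (by rw [eval_X, hj])
      obtain ⟨g, hg0, hgJ, hgP⟩ := descend S P hK hfP hf0 J hfJ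
      refine ⟨g, fun _ => ⟨hg0, hgJ, fun p hp => ?_⟩⟩
      rw [hV] at hp
      have := hp.1 _ hgP
      rwa [eval_map, ← aeval_def] at this
    · exact ⟨0, fun h => absurd h hJ⟩
  choose R hR using hrel
  have h1 := generic K R fun J hJ => ⟨(hR J hJ).1, (hR J hJ).2.1⟩
  have h2 : ∀ᵐ c : Fin n ⊕ Fin n → ℂ, ∀ i : Fin n, c (Sum.inr i) ≠ 0 := by
    rw [ae_all_iff]
    intro i
    rw [ae_iff]
    simp only [not_not]
    exact null_fintype (fun c : Fin n ⊕ Fin n → ℂ => c (Sum.inr i)) (differentiable_apply _)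
      ⟨fun _ => 1, one_ne_zero⟩
  filter_upwards [h1, h2] with c hc1 hc2 z hz
  obtain ⟨u, hu, hzu⟩ := hz
  have hu' := hu
  rw [hV] at hu'
  have hz1 : ∀ i, z i = u (Sum.inl i) + c (Sum.inl i) := fun i => congrFun hzu (Sum.inl i)
  have hz2 : ∀ i, Complex.exp (z i) = c (Sum.inr i) * u (Sum.inr i) :=
    fun i => congrFun hzu (Sum.inr i)
  have hPh : Ph (z, u) = c := by
    funext s
    rcases s with i | i
    · show z i - u (Sum.inl i) = c (Sum.inl i)
      rw [hz1]; ring
    · show Complex.exp (z i) / u (Sum.inr i) = c (Sum.inr i)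
      rw [hz2, mul_div_cancel_right₀ _ (hu'.2 i)]
  obtain ⟨J, hJ, hind⟩ := hc1 z u hu'.2 hPh fun J' hJ' => (hR J' hJ').2.2 u hu
  -- the field
  obtain ⟨L, hL⟩ : ∃ L : IntermediateField K ℂ, L = IntermediateField.adjoin K (Set.range c) :=
    ⟨_, rfl⟩
  have hcL : ∀ s, c s ∈ IntermediateField.adjoin K (Set.range c) := fun s =>
    IntermediateField.subset_adjoin K _ ⟨s, rfl⟩
  have hcM : ∀ s, c s ∈ IntermediateField.adjoin (IntermediateField.adjoin K (Set.range c))
      (Set.range (Ev z)) := fun s =>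
    IntermediateField.algebraMap_mem (IntermediateField.adjoin
      (IntermediateField.adjoin K (Set.range c)) (Set.range (Ev z)))
      (⟨c s, hcL s⟩ : IntermediateField.adjoin K (Set.range c))
  have hEM : ∀ s, Ev z s ∈ IntermediateField.adjoin (IntermediateField.adjoin K (Set.range c))
      (Set.range (Ev z)) := fun s => IntermediateField.subset_adjoin _ _ ⟨s, rfl⟩
  have huM : ∀ s, u s ∈ IntermediateField.adjoin (IntermediateField.adjoin K (Set.range c))
      (Set.range (Ev z)) := by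
    intro s
    rcases s with i | i
    · have : u (Sum.inl i) = Ev z (Sum.inl i) - c (Sum.inl i) := by
        show u (Sum.inl i) = z i - c (Sum.inl i)
        rw [hz1]; ring
      rw [this]
      exact sub_mem (hEM _) (hcM _)
    · have : u (Sum.inr i) = Ev z (Sum.inr i) / c (Sum.inr i) := by
        show u (Sum.inr i) = Complex.exp (z i) / c (Sum.inr i)
        rw [hz2, mul_div_cancel_left₀ _ (hc2 i)]
      rw [this]
      exact div_mem (hEM _) (hcM _)
  apply le_antisymm
  · -- upper bound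
    have hadj : IntermediateField.adjoin (IntermediateField.adjoin K (Set.range c))
        (Set.range (Ev z)) = IntermediateField.adjoin (IntermediateField.adjoin K (Set.range c))
        (Set.range u) := by
      apply le_antisymm
      · rw [IntermediateField.adjoin_le_iff]
        rintro _ ⟨s, rfl⟩
        have hcM' : ∀ s, c s ∈ IntermediateField.adjoin (IntermediateField.adjoin K (Set.range c))
            (Set.range u) := fun s =>
          IntermediateField.algebraMap_mem (IntermediateField.adjoin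
            (IntermediateField.adjoin K (Set.range c)) (Set.range u))
            (⟨c s, hcL s⟩ : IntermediateField.adjoin K (Set.range c))
        have hu0 : ∀ s, u s ∈ IntermediateField.adjoin (IntermediateField.adjoin K (Set.range c))
          (Set.range u) := fun s => IntermediateField.subset_adjoin _ _ ⟨s, rfl⟩
        rcases s with i | i
        · show z i ∈ _
          rw [hz1]
          exact add_mem (hu0 _) (hcM' _)
        · show Complex.exp (z i) ∈ _
          rw [hz2]
          exact mul_mem (hcM' _) (hu0 _)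
      · rw [IntermediateField.adjoin_le_iff]
        rintro _ ⟨s, rfl⟩
        exact huM s
    rw [hadj]
    refine trdeg_le_of_rel u n ?_
    intro J' hJ'
    obtain ⟨hg0, hgJ, hgV⟩ := hR J' hJ'
    refine ⟨map (algebraMap K (IntermediateField.adjoin K (Set.range c))) (R J'), ?_, ?_, ?_⟩
    · intro h
      exact hg0 (map_injective _ (algebraMap K (IntermediateField.adjoin K (Set.range c))).injective
        (by rw [h, map_zero]))
    · exact (vars_map (algebraMap K (IntermediateField.adjoin K (Set.range c))) (p := R J')).trans hgJ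
    · rw [aeval_map_algebraMap]
      exact hgV u hu
  · -- lower bound
    refine trdeg_adjoin_ge c (Ev z) _ hind ?_ n ?_
    · rintro (s | j)
      · exact hEM s
      · exact huM j
    · simp only [Fintype.card_sum, Fintype.card_fin, Fintype.card_coe, hJ]
      omega

end Pool.Agent.Y563.SE
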