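import Mathlib

/-! Null sets: zero sets of entire functions, and exceptional translations. -/

set_option autoImplicit false

namespace Pool.Agent.Y563.SE

open MeasureTheory Set Filter Topology

theorem zeros_countable {f : ℂ → ℂ} (hf : Differentiable ℂ f) (h : ∃ z, f z ≠ 0) :
    {z | f z = 0}.Countable := by
  obtain ⟨x, hx⟩ := h
  have hfa : AnalyticOnNhd ℂ f univ := fun z _ => hf.analyticAt z
  rcases AnalyticOnNhd.eqOn_zero_or_eventually_ne_zero_of_preconnected
      (f := f) (U := univ) hfa isPreconnected_univ with h | h
  · exact absurd (h (mem_univ x)) hx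
  · have h2 : IsDiscrete ({z | f z = 0} ∩ univ) := by
      apply isDiscrete_of_codiscreteWithin
      filter_upwards [h] with z hz
      exact hz
    rw [inter_univ] at h2
    exact (HereditarilyLindelofSpace.isLindelof _).countable_of_isDiscrete h2

theorem null_fin : ∀ (m : ℕ) (f : (Fin m → ℂ) → ℂ), Differentiable ℂ f → (∃ x, f x ≠ 0) →
    volume {x | f x = 0} = 0
  | 0, f, _, h => by
    obtain ⟨x, hx⟩ := h
    have : {x | f x = 0} = ∅ := by
      ext y
      simp only [mem_ofPred_eq, mem_empty_iff_false, iff_false]
      rwa [Subsingleton.elim y x]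
    rw [this, measure_empty]
  | m + 1, f, hf, h => by
    obtain ⟨x, hx⟩ := h
    have hmp := volume_preserving_piFinSuccAbove (fun _ : Fin (m + 1) => ℂ) 0
    set T : Set (ℂ × (Fin m → ℂ)) := {p | f (Fin.cons p.1 p.2) = 0} with hT
    have hfc : Continuous f := hf.continuous
    have hcons : Continuous fun p : ℂ × (Fin m → ℂ) => (Fin.cons p.1 p.2 : Fin (m + 1) → ℂ) := by
      apply continuous_pi
      intro i
      refine Fin.cases ?_ (fun j => ?_) i
      · simpa using continuous_fst
      · simp only [Fin.cons_succ]
        exact (continuous_apply j).comp continuous_snd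
    have hTm : MeasurableSet T := by
      have : IsClosed T := isClosed_eq (hfc.comp hcons) continuous_const
      exact this.measurableSet
    have h1 : {x | f x = 0} =
        (MeasurableEquiv.piFinSuccAbove (fun _ : Fin (m + 1) => ℂ) 0) ⁻¹' T := by
      ext y
      simp only [mem_ofPred_eq, mem_preimage, hT]
      have : (Fin.cons ((MeasurableEquiv.piFinSuccAbove (fun _ : Fin (m + 1) => ℂ) 0) y).1
        ((MeasurableEquiv.piFinSuccAbove (fun _ : Fin (m + 1) => ℂ) 0) y).2 : Fin (m + 1) → ℂ) = y := by
        funext i
        refine Fin.cases ?_ (fun j => ?_) i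
        · rfl
        · simp [MeasurableEquiv.piFinSuccAbove]
          rfl
      rw [this]
    rw [h1, hmp.measure_preimage hTm.nullMeasurableSet]
    rw [Measure.volume_eq_prod, Measure.measure_prod_null hTm]
    -- slices
    have hc1 : {t : ℂ | f (Fin.cons t fun i => x i.succ) = 0}.Countable := by
      apply zeros_countable
      · apply hf.comp
        rw [differentiable_pi]
        intro i
        refine Fin.cases ?_ (fun j => ?_) i
        · simpa using differentiable_id
        · simpa using differentiable_const _
      · refine ⟨x 0, ?_⟩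
        have : (Fin.cons (x 0) fun i => x i.succ : Fin (m + 1) → ℂ) = x := by
          funext i
          refine Fin.cases ?_ (fun j => ?_) i
          · rfl
          · rfl
        rw [this]
        exact hx
    have h2 : ∀ᵐ t : ℂ, f (Fin.cons t fun i => x i.succ) ≠ 0 := by
      rw [ae_iff]
      simp only [not_not]
      exact hc1.measure_zero volume
    filter_upwards [h2] with t ht
    simp only [Pi.zero_apply]
    have h3 := null_fin m (fun y => f (Fin.cons t y)) (by
      apply hf.comp
      rw [differentiable_pi]
      intro i
      refine Fin.cases ?_ (fun j => ?_) i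
      · simpa using differentiable_const _
      · simpa using differentiable_apply j) ⟨_, ht⟩
    exact h3

theorem null_fintype {σ : Type} [Fintype σ] (f : (σ → ℂ) → ℂ) (hf : Differentiable ℂ f)
    (h : ∃ x, f x ≠ 0) : volume {x | f x = 0} = 0 := by
  classical
  let e : Fin (Fintype.card σ) ≃ σ := (Fintype.equivFin σ).symm
  have hmp := volume_measurePreserving_piCongrLeft (fun _ : σ => ℂ) e
  have h1 : ∀ y : Fin (Fintype.card σ) → ℂ,
      (MeasurableEquiv.piCongrLeft (fun _ : σ => ℂ) e) y = fun i => y (e.symm i) := by
    intro y
    funext i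
    obtain ⟨j, rfl⟩ := e.surjective i
    rw [e.symm_apply_apply]
    simp [MeasurableEquiv.coe_piCongrLeft, Equiv.piCongrLeft_apply_apply]
  have hcl : MeasurableSet {x | f x = 0} :=
    (isClosed_eq hf.continuous continuous_const).measurableSet
  rw [← hmp.measure_preimage hcl.nullMeasurableSet]
  have h2 : (MeasurableEquiv.piCongrLeft (fun _ : σ => ℂ) e) ⁻¹' {x | f x = 0} =
      {y : Fin (Fintype.card σ) → ℂ | f (fun i => y (e.symm i)) = 0} := by
    ext y
    simp only [mem_preimage, mem_ofPred_eq, h1]
  rw [h2]
  apply null_fin _ (fun y => f (fun i => y (e.symm i)))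
  · apply hf.comp
    rw [differentiable_pi]
    intro i
    exact differentiable_apply _
  · obtain ⟨x, hx⟩ := h
    refine ⟨fun j => x (e j), ?_⟩
    simpa using hx

end Pool.Agent.Y563.SE
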